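import Pool.Agent.CT9.Final
import Pool.Agent.CT96.Facts

/-!
# The Clifford solid torus does not attain `σ_euc` of the solid torus (MP_e875d0_gt)
-/

namespace Pool.Agent.Results.MP_e875d0_gt.ThinTorus

open Pool.Agent.CT

/-- `C` (the region bounded by the stereographic image of the Clifford torus) is a smooth bounded
domain with closure a solid torus and frontier the image of the Clifford torus, and there is a
smooth bounded domain `Ω ⊆ ℝ³` with closure a solid torus and `Q(Ω) > Q(C)`. -/
theorem result :
    (IsSmoothBoundedDomain cliffordRegion ∧ IsSolidTorus (closure cliffordRegion) ∧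
      frontier cliffordRegion = cliffordImage) ∧
    ∃ Ω : Set E3, IsSmoothBoundedDomain Ω ∧ IsSolidTorus (closure Ω) ∧
      yamabeQ Ω > yamabeQ cliffordRegion :=
  ⟨clifford_facts, main⟩

end Pool.Agent.Results.MP_e875d0_gt.ThinTorus
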